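import Mathlib
import Pool.Agent.Y298.CA.Stm

/-!
# Project CA, statement S_PUSH: distortion of the iterates along a slow curve
-/

set_option autoImplicit false

open Set Filter Metric MeasureTheory

namespace Pool.Agent.Y261.CA

open Pool.Agent.TH279.MD Pool.Agent.Y298.SH Pool.Agent.Y298.SH.CD Pool.Agent.Y298.CA

theorem GG_succ (d : ℕ) (γ : ℂ → ℂ) (j : ℕ) (w : ℂ) :
    GG d γ (j + 1) w = GG d γ j w ^ d + γ w := by
  rw [GG, Function.iterate_succ_apply']
  rfl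

theorem GG_succ' (d : ℕ) (γ : ℂ → ℂ) (j : ℕ) :
    GG d γ (j + 1) = fun w => GG d γ j w ^ d + γ w := funext fun w => GG_succ d γ j w

theorem gamma_at {γ : ℂ → ℂ} {w : ℂ} {ρ : ℝ} (hol : DifferentiableOn ℂ γ (ball w ρ)) {w' : ℂ}
    (hw : w' ∈ ball w ρ) : DifferentiableAt ℂ γ w' :=
  hol.differentiableAt (isOpen_ball.mem_nhds hw)

theorem GG_diff (d : ℕ) {γ : ℂ → ℂ} {w : ℂ} {ρ : ℝ} (hol : DifferentiableOn ℂ γ (ball w ρ))
    (j : ℕ) {w' : ℂ} (hw : w' ∈ ball w ρ) : DifferentiableAt ℂ (GG d γ j) w' := by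
  induction j with
  | zero => exact differentiableAt_id
  | succ j ih =>
    rw [GG_succ']
    exact (ih.pow d).add (gamma_at hol hw)

theorem GG_deriv (d : ℕ) {γ : ℂ → ℂ} {w : ℂ} {ρ : ℝ} (hol : DifferentiableOn ℂ γ (ball w ρ))
    (j : ℕ) {w' : ℂ} (hw : w' ∈ ball w ρ) : deriv (GG d γ (j + 1)) w' =
      d * GG d γ j w' ^ (d - 1) * deriv (GG d γ j) w' + deriv γ w' := by
  rw [GG_succ']
  exact (((GG_diff d hol j hw).hasDerivAt.fun_pow d).add (gamma_at hol hw).hasDerivAt).deriv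

theorem DD_succ (d : ℕ) (γ : ℂ → ℂ) (j : ℕ) (w : ℂ) :
    DD d γ (j + 1) w = d * GG d γ j w ^ (d - 1) * DD d γ j w := by
  rw [DD, add_comm j 1, deriv_iter_add, Function.iterate_one, deriv_f]
  rfl

theorem push : S_PUSH := by
  intro d γ w ρ κ m n a b hd hρ hol hκ hmn hbase ha hb hA hB hsum
  have hdR : (2 : ℝ) ≤ d := by exact_mod_cast hd
  have hpart : ∀ j, j ≤ n → ∑ i ∈ Finset.Ico m j, (4 * d * a i + b i) ≤ 1 / 8 := fun j hj =>
    (Finset.sum_le_sum_of_subset_of_nonneg (Finset.Ico_subset_Ico_right hj) fun i _ _ => by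
      have := ha i
      have := hb i
      positivity).trans hsum
  have key : ∀ j, m ≤ j → j ≤ n → ∀ w' ∈ ball w ρ, ‖deriv (GG d γ j) w' - DD d γ j w‖ ≤
      (1 / 16 + ∑ i ∈ Finset.Ico m j, (4 * d * a i + b i)) * ‖DD d γ j w‖ := by
    intro j hmj
    induction j, hmj using Nat.le_induction with
    | base =>
      intro _ w' hw'
      simpa using hbase w' hw'
    | succ j hmj ih =>
      intro hjn w' hw'
      have ih' := ih (by omega)
      have hp := hpart (j + 1) hjn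
      rw [Finset.sum_Ico_succ_top hmj] at hp ⊢
      set η := ∑ i ∈ Finset.Ico m j, (4 * d * a i + b i) with hη
      have hη0 : 0 ≤ η := Finset.sum_nonneg fun i _ => by
        have := ha i
        have := hb i
        positivity
      have haj := ha j
      have hbj := hb j
      have hda : 4 * d * a j ≤ 1 / 8 := by linarith
      have hη1 : 1 / 16 + η ≤ 1 / 4 := by
        have : 0 ≤ 4 * d * a j := by positivity
        linarith
      set Dj := DD d γ j w with hDj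
      set x := GG d γ j w with hx
      have hG' : ∀ z ∈ ball w ρ, ‖deriv (GG d γ j) z‖ ≤ 5 / 4 * ‖Dj‖ := by
        intro z hz
        calc ‖deriv (GG d γ j) z‖ = ‖(deriv (GG d γ j) z - Dj) + Dj‖ := by congr 1; ring
          _ ≤ ‖deriv (GG d γ j) z - Dj‖ + ‖Dj‖ := norm_add_le _ _
          _ ≤ 1 / 4 * ‖Dj‖ + ‖Dj‖ := by
            have h1 := ih' z hz
            have h2 : (1 / 16 + η) * ‖Dj‖ ≤ 1 / 4 * ‖Dj‖ := by gcongr
            linarith
          _ = 5 / 4 * ‖Dj‖ := by ring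
      have hmv : ‖GG d γ j w' - x‖ ≤ (5 / 4 * a j) * ‖x‖ := by
        have h1 := (convex_ball w ρ).norm_image_sub_le_of_norm_deriv_le (𝕜 := ℂ) (f := GG d γ j)
          (fun z hz => GG_diff d hol j hz) hG' (mem_ball_self hρ) hw'
        have h2 : ‖w' - w‖ ≤ ρ := by
          rw [← dist_eq_norm]
          exact (mem_ball.1 hw').le
        have h3 := hA j hmj (by omega)
        calc ‖GG d γ j w' - x‖ ≤ 5 / 4 * ‖Dj‖ * ‖w' - w‖ := h1
          _ ≤ 5 / 4 * ‖Dj‖ * ρ := by gcongr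
          _ = 5 / 4 * (‖Dj‖ * ρ) := by ring
          _ ≤ 5 / 4 * (a j * ‖x‖) := by gcongr
          _ = _ := by ring
      set q := 5 / 4 * a j with hq
      have hq0 : 0 ≤ q := by positivity
      have hum : ‖GG d γ j w'‖ ≤ ‖x‖ * (1 + q) := by
        calc ‖GG d γ j w'‖ = ‖(GG d γ j w' - x) + x‖ := by congr 1; ring
          _ ≤ ‖GG d γ j w' - x‖ + ‖x‖ := norm_add_le _ _
          _ ≤ _ := by linarith
      have hxm : ‖x‖ ≤ ‖x‖ * (1 + q) := by nlinarith [norm_nonneg x]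
      have h1 := pow_sub_le (GG d γ j w') x hum hxm (d - 1)
      have hd1 : ((d - 1 : ℕ) : ℝ) = d - 1 := by
        rw [Nat.cast_sub (by omega)]
        simp
      have h2 : (1 + q) ^ (d - 1 - 1) ≤ 3 / 2 := by
        have h3 : ((d - 1 - 1 : ℕ) : ℝ) * q ≤ 1 / 4 := by
          have h4 : ((d - 1 - 1 : ℕ) : ℝ) ≤ d := by exact_mod_cast (by omega : d - 1 - 1 ≤ d)
          calc ((d - 1 - 1 : ℕ) : ℝ) * q ≤ d * q := by gcongr
            _ = 5 / 16 * (4 * d * a j) := by rw [hq]; ring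
            _ ≤ 1 / 4 := by linarith
        have h5 := pow_up hq0 (n := d - 1 - 1) (by linarith)
        linarith
      have h4 : ‖x‖ ^ (d - 1 - 1) * ‖x‖ = ‖x‖ ^ (d - 1) := by
        rw [← pow_succ]
        congr 1
        omega
      have h5 : ‖GG d γ j w' ^ (d - 1) - x ^ (d - 1)‖ ≤ (d - 1) * (15 / 8 * a j) * ‖x‖ ^ (d - 1) := by
        refine h1.trans ?_
        rw [hd1]
        have hd0 : (0 : ℝ) ≤ d - 1 := by linarith
        calc ((d : ℝ) - 1) * (‖x‖ * (1 + q)) ^ (d - 1 - 1) * ‖GG d γ j w' - x‖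
            ≤ (d - 1) * (‖x‖ ^ (d - 1 - 1) * (3 / 2)) * (q * ‖x‖) := by
              rw [mul_pow]
              gcongr
          _ = (d - 1) * (3 / 2 * q) * (‖x‖ ^ (d - 1 - 1) * ‖x‖) := by ring
          _ = _ := by rw [h4, hq]; ring
      rw [GG_deriv d hol j hw', DD_succ]
      have h6 : ‖(d : ℂ) * x ^ (d - 1) * Dj‖ = d * ‖x‖ ^ (d - 1) * ‖Dj‖ := by
        rw [norm_mul, norm_mul, norm_pow, Complex.norm_natCast]
      have h7 : ‖deriv γ w'‖ ≤ b j * (d * ‖x‖ ^ (d - 1) * ‖Dj‖) := by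
        refine (hκ w' hw').trans ?_
        have := hB j hmj (by omega)
        rwa [DD_succ, h6] at this
      rw [h6]
      have h8 : d * GG d γ j w' ^ (d - 1) * deriv (GG d γ j) w' + deriv γ w' -
          d * x ^ (d - 1) * Dj = d * (GG d γ j w' ^ (d - 1) - x ^ (d - 1)) * deriv (GG d γ j) w' +
          d * x ^ (d - 1) * (deriv (GG d γ j) w' - Dj) + deriv γ w' := by ring
      rw [h8]
      refine (norm_add₃_le).trans ?_
      have h9 : ‖(d : ℂ) * (GG d γ j w' ^ (d - 1) - x ^ (d - 1)) * deriv (GG d γ j) w'‖ ≤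
          d * ((d - 1) * (15 / 8 * a j) * ‖x‖ ^ (d - 1)) * (5 / 4 * ‖Dj‖) := by
        rw [norm_mul, norm_mul, Complex.norm_natCast]
        have hd0 : (0 : ℝ) ≤ d - 1 := by linarith
        gcongr
        exact hG' w' hw'
      have h10 : ‖(d : ℂ) * x ^ (d - 1) * (deriv (GG d γ j) w' - Dj)‖ ≤
          d * ‖x‖ ^ (d - 1) * ((1 / 16 + η) * ‖Dj‖) := by
        rw [norm_mul, norm_mul, norm_pow, Complex.norm_natCast]
        gcongr
        exact ih' w' hw'
      have h11 : 0 ≤ d * ‖x‖ ^ (d - 1) * ‖Dj‖ := by positivity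
      have h12 : 0 ≤ a j * (d * ‖x‖ ^ (d - 1) * ‖Dj‖) := mul_nonneg haj h11
      calc _ ≤ d * ((d - 1) * (15 / 8 * a j) * ‖x‖ ^ (d - 1)) * (5 / 4 * ‖Dj‖) +
            d * ‖x‖ ^ (d - 1) * ((1 / 16 + η) * ‖Dj‖) +
            b j * (d * ‖x‖ ^ (d - 1) * ‖Dj‖) := add_le_add (add_le_add h9 h10) h7
        _ = (75 / 32 * (d - 1)) * (a j * (d * ‖x‖ ^ (d - 1) * ‖Dj‖)) +
            (1 / 16 + η + b j) * (d * ‖x‖ ^ (d - 1) * ‖Dj‖) := by ring
        _ ≤ (4 * d) * (a j * (d * ‖x‖ ^ (d - 1) * ‖Dj‖)) +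
            (1 / 16 + η + b j) * (d * ‖x‖ ^ (d - 1) * ‖Dj‖) := by
            refine add_le_add (mul_le_mul_of_nonneg_right ?_ h12) le_rfl
            linarith
        _ = _ := by ring
  intro w' hw'
  refine (key n hmn le_rfl w' hw').trans ?_
  refine mul_le_mul_of_nonneg_right ?_ (norm_nonneg _)
  linarith

end Pool.Agent.Y261.CA
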